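import Mathlib
import Pool.Agent.H.MP_77d395_lc.A
import Pool.Agent.H.MP_31a5ad_lc.D

set_option autoImplicit false

namespace Pool.Agent.H.MP_f1f3c4_lc

open Set Filter Function Cardinal Pool.Agent.H.MP_77d395_lc Pool.Agent.H.MP_31a5ad_lc

/-- Martin's axiom for sigma-centered posets and aleph one dense sets -/
def MAs : Prop :=
  ∀ (R : Type) [Preorder R] [Nonempty R], (∃ c : R → ℕ, ∀ s : Finset R,
    (∀ x ∈ s, ∀ y ∈ s, c x = c y) → ∃ r, ∀ x ∈ s, r ≤ x) → ∀ 𝒟 : Set (Set R), #𝒟 ≤ ℵ₁ →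
      (∀ D ∈ 𝒟, ∀ p, ∃ d ∈ D, d ≤ p) → ∃ G : Set R, (∀ p ∈ G, ∀ q, p ≤ q → q ∈ G) ∧
        (∀ p ∈ G, ∀ q ∈ G, ∃ r ∈ G, r ≤ p ∧ r ≤ q) ∧ ∀ D ∈ 𝒟, (G ∩ D).Nonempty

theorem am (h : MAs) {Q Z ρ τ : Type} [Preorder Q] [Countable Q] (F : Q → Set Z) (hF : Antitone F)
    (Φ : ρ → Set Z) (un : ∀ a b, ∃ c, Φ c = Φ a ∪ Φ b) (hτ : #τ ≤ ℵ₁) (act : τ → Set Q)
    (ha : ∀ i, IsLowerSet (act i)) (tk : τ → Set ρ)
    (gd : ∀ i, ∀ q ∈ act i, ∃ a ∈ tk i, Disjoint (F q) (Φ a)) (D : ℕ → Set Q)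
    (hD : ∀ n q a, Disjoint (F q) (Φ a) → ∃ r ≤ q, r ∈ D n ∧ Disjoint (F r) (Φ a)) (q0 : Q) (a0 : ρ)
    (h0 : Disjoint (F q0) (Φ a0)) : ∃ G : Set Q, (∀ p ∈ G, ∀ q ∈ G, ∃ r ∈ G, r ≤ p ∧ r ≤ q) ∧
      (∀ n, ∃ q ∈ G, q ∈ D n ∧ q ≤ q0) ∧
        ∀ i, ∀ q ∈ G, q ∈ act i → ∃ a ∈ tk i, ∀ r ∈ G, Disjoint (F r) (Φ a) := by
  classical
  let R := {x : Q × ρ // x.1 ≤ q0 ∧ Disjoint (F x.1) (Φ x.2)}
  let _ : Preorder R :=
    { le x y := x.1.1 ≤ y.1.1 ∧ Φ y.1.2 ⊆ Φ x.1.2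
      le_refl _ := ⟨le_rfl, subset_rfl⟩
      le_trans _ _ _ h g := ⟨h.1.trans g.1, g.2.trans h.2⟩ }
  have : Nonempty R := ⟨⟨(q0, a0), le_rfl, h0⟩⟩
  obtain ⟨c, hc⟩ := exists_injective_nat Q
  obtain ⟨G, -, g1, g2⟩ := h R ⟨fun x => c x.1.1, fun s hs => by
      suffices ∀ q, (∀ x ∈ s, x.1.1 = q) → s.Nonempty → ∃ r : R, r.1.1 = q ∧ ∀ x ∈ s, r ≤ x by
        rcases s.eq_empty_or_nonempty with rfl | ⟨x, hx⟩
        · simp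
        · exact (this _ (fun y h => hc (hs y h x hx)) ⟨x, hx⟩).imp fun _ h => h.2
      intro q h n
      clear hs
      induction n using Finset.Nonempty.cons_induction with
      | singleton x => exact ⟨x, h x (by simp), by simp⟩
      | cons x s _ _ ih =>
        obtain ⟨r, rfl, r1⟩ := ih fun y c => h y (by simp [c])
        obtain ⟨b, hb⟩ := un r.1.2 x.1.2
        refine ⟨⟨(r.1.1, b), r.2.1, hb ▸ r.2.2.union_right (h x (by simp) ▸ x.2.2)⟩, rfl, ?_⟩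
        simp only [Finset.mem_cons, forall_eq_or_imp]
        exact ⟨⟨(h x (by simp)).ge, subset_union_right.trans hb.ge⟩, fun y c =>
          ⟨(r1 y c).1, (r1 y c).2.trans (subset_union_left.trans hb.ge)⟩⟩⟩
    (range (Sum.elim (fun n => {x | x.1.1 ∈ D n}) fun i => {x | (∀ y ≤ x, y.1.1 ∉ act i) ∨
      ∃ a ∈ tk i, Φ a ⊆ Φ x.1.2})) (mk_range_le.trans (by
        simpa using add_le_of_le (aleph0_le_aleph 1) (aleph0_le_aleph 1) hτ)) (by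
      rintro _ ⟨n | i, rfl⟩ x
      · obtain ⟨r, r1, r2, r3⟩ := hD n _ _ x.2.2
        exact ⟨⟨(r, x.1.2), r1.trans x.2.1, r3⟩, r2, r1, subset_rfl⟩
      by_cases c : ∀ y ≤ x, y.1.1 ∉ act i
      · exact ⟨x, .inl c, le_rfl⟩
      push Not at c
      obtain ⟨y, y1, y2⟩ := c
      obtain ⟨a, a1, a2⟩ := gd i _ y2
      obtain ⟨b, hb⟩ := un y.1.2 a
      exact ⟨⟨(y.1.1, b), y.2.1, hb ▸ y.2.2.union_right a2⟩, .inr ⟨a, a1, subset_union_right.trans hb.ge⟩,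
        y1.1, y1.2.trans (subset_union_left.trans hb.ge)⟩)
  refine ⟨(·.1.1) '' G, ?_, fun n => ?_, ?_⟩
  · rintro _ ⟨x, h1, rfl⟩ _ ⟨y, h2, rfl⟩
    obtain ⟨r, r1, r2, r3⟩ := g1 x h1 y h2
    exact ⟨_, ⟨r, r1, rfl⟩, r2.1, r3.1⟩
  · obtain ⟨x, x1, x2⟩ := g2 _ ⟨.inl n, rfl⟩
    exact ⟨_, ⟨x, x1, rfl⟩, x2, x.2.1⟩
  rintro i _ ⟨x, x1, rfl⟩ x2
  obtain ⟨y, y1, y2 | ⟨a, a1, a2⟩⟩ := g2 _ ⟨.inr i, rfl⟩
  · obtain ⟨r, -, r2, r3⟩ := g1 x x1 y y1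
    exact (y2 r r3 (ha i r2.1 x2)).elim
  refine ⟨a, a1, ?_⟩
  rintro _ ⟨z, z1, rfl⟩
  obtain ⟨r, -, r2, r3⟩ := g1 z z1 y y1
  exact r.2.2.mono (hF r2.1) (a2.trans r3.2)

variable {T : Type} [PartialOrder T]

def Φ (a : List (T × ℕ)) : Set (T × ℕ) := {z | ∃ t, (t, z.2) ∈ a ∧ z.1 ≤ t}

def Sp (F : Set (T × ℕ)) : Prop := ∀ x ∈ F, ∀ y ∈ F, x.1 ≤ y.1 → (x.1 = y.1 ↔ x.2 = y.2)

def Gd (F Ψ : Set (T × ℕ)) (A : Set (List (T × ℕ))) : Prop :=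
  ∀ E : Set (T × ℕ), E.Finite → (∀ z ∈ E, z.1 ∉ Prod.fst '' F ∧ z ∉ Ψ) →
    ∃ a ∈ A, Disjoint F (Φ a) ∧ Disjoint E (Φ a)

def Bs (t : T) (k : ℕ) : Set (List (T × ℕ)) := {a | ∃ c ≥ k, a = [(t, c)]}

structure Cd (T : Type) [PartialOrder T] where
  F : Set (T × ℕ)
  S : Set (Set (List (T × ℕ)))
  c : F.Countable
  sp : Sp F
  lo : IsLowerSet (Prod.fst '' F)
  k : #S ≤ ℵ₁
  bs : ∀ t k, Bs t k ∈ S
  gd : ∀ A ∈ S, Gd F ∅ A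

instance : Preorder (Cd T) where
  le p q := q.F ⊆ p.F ∧ q.S ⊆ p.S
  le_refl _ := ⟨subset_rfl, subset_rfl⟩
  le_trans _ _ _ h g := ⟨g.1.trans h.1, g.2.trans h.2⟩

theorem thin (a : List (T × ℕ)) (u : T) : {c | (u, c) ∈ Φ a}.Finite :=
  ((a.finite_toSet).image Prod.snd).subset fun _ ⟨_, h, _⟩ => ⟨_, h, rfl⟩

theorem kf {Z : Type} (h : #Z ≤ ℵ₁) : #{E : Set Z // E.Finite} ≤ ℵ₁ ∧ #(List Z) ≤ ℵ₁ := by
  have : #(List Z) ≤ ℵ₁ := (mk_list_le_max _).trans (max_le (aleph0_le_aleph 1) h)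
  exact ⟨(mk_le_of_surjective (f := fun l : List Z => ⟨_, l.finite_toSet⟩) fun E =>
    ⟨E.2.toFinset.toList, Subtype.ext (by simp)⟩).trans this, this⟩

theorem el (h : MAs) (hT : #T ≤ ℵ₁) (p : Cd T) (Ψ : Set (T × ℕ)) (B : Set T)
    (S : Set (Set (List (T × ℕ)))) (h1 : ∀ u, {c | (u, c) ∈ Ψ}.Finite) (h2 : B.Countable)
    (h3 : IsLowerSet B) (h4 : Prod.fst '' Ψ ⊆ B) (h5 : #S ≤ ℵ₁) (h6 : ∀ A ∈ S, Gd p.F Ψ A) :
    ∃ q : ℕ → Cd T, (∀ j, q j ≤ p ∧ B ⊆ Prod.fst '' (q j).F ∧ S ⊆ (q j).S) ∧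
      ∀ a, Disjoint p.F (Φ a) → ∃ j, Disjoint (q j).F (Φ a) := by
  classical
  have hZ : #(T × ℕ) ≤ ℵ₁ := by simpa using mul_le_of_le (aleph0_le_aleph 1) hT (aleph0_le_aleph 1)
  let Q := {q : Set (ℕ × T × ℕ) // q.Finite ∧ (∀ z ∈ q, z.2.1 ∈ B ∧ z.2.1 ∉ Prod.fst '' p.F ∧
    z.2 ∉ Ψ) ∧ ∀ j, Sp (p.F ∪ Prod.mk j ⁻¹' q)}
  have : Countable Q := by
    refine Set.Countable.to_subtype ((countable_ofPred_finite_subset
      (countable_univ.prod (h2.prod countable_univ))).mono ?_)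
    exact fun q h => ⟨h.1, fun z c => ⟨trivial, (h.2.1 z c).1, trivial⟩⟩
  have : Countable Qᵒᵈ := this
  obtain ⟨e, he⟩ := countable_iff_exists_subset_range.1 (countable_univ.prod (h2.image some) :
    (Set.univ ×ˢ _ : Set (ℕ × Option T)).Countable)
  have hS : ∀ A ∈ p.S ∪ S, Gd p.F Ψ A := fun A c => c.elim (fun c E e g =>
    p.gd A c E e fun z h => ⟨(g z h).1, id⟩) (h6 A)
  have fi : ∀ (q : Q) j, (Prod.mk j ⁻¹' q.1).Finite := fun q j =>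
    q.2.1.preimage (Prod.mk_right_injective j).injOn
  obtain ⟨G, g1, g2, g3⟩ := am h (Q := Qᵒᵈ) (ρ := {a : Set (ℕ × T × ℕ) //
      ∀ j u, {c | (j, u, c) ∈ a}.Finite}) (τ := (ℕ × ↥(p.S ∪ S) × {E : Set (T × ℕ) // E.Finite}) ⊕
      List (T × ℕ)) (fun q => q.1) (fun _ _ h => h) (·.1) (fun a b => ⟨⟨a.1 ∪ b.1, fun j u =>
      (a.2 j u).union (b.2 j u)⟩, rfl⟩) (by
      simpa using add_le_of_le (aleph0_le_aleph 1) (mul_le_of_le (aleph0_le_aleph 1)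
        (aleph0_le_aleph 1) (mul_le_of_le (aleph0_le_aleph 1) ((mk_union_le _ _).trans
          (add_le_of_le (aleph0_le_aleph 1) p.k h5)) (kf hZ).1)) (kf hZ).2)
    (Sum.elim (fun i => {_q | ∀ z ∈ i.2.2.1, z.1 ∉ Prod.fst '' p.F ∧ z.1 ∉ B}) fun _ => Set.univ)
    (by rintro (i | i) _ _ _ <;> exact id)
    (Sum.elim (fun i => {b | ∃ a ∈ i.2.1.1, b.1 = {i.1} ×ˢ Φ a ∧ Disjoint p.F (Φ a) ∧
      Disjoint i.2.2.1 (Φ a)}) fun a => {b | ∃ j, b.1 = {j} ×ˢ Φ a}) (by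
      have th : ∀ j a, ∀ i u, {c | (i, u, c) ∈ ({j} ×ˢ Φ a : Set (ℕ × T × ℕ))}.Finite :=
        fun j a i u => (thin a u).subset fun _ h => h.2
      rintro (⟨j, A, E⟩ | a) q c
      · obtain ⟨a, a1, a2, a3⟩ := hS _ A.2 _ (E.2.union (fi q j)) fun z h => h.elim
          (fun h => ⟨(c z h).1, fun g => (c z h).2 (h4 ⟨_, g, rfl⟩)⟩) fun h => (q.2.2.1 _ h).2
        rw [disjoint_union_left] at a3
        exact ⟨⟨_, th j a⟩, ⟨a, a1, rfl, a2, a3.1⟩, disjoint_left.2 fun ⟨_, z⟩ h ⟨rfl, g⟩ =>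
          disjoint_left.1 a3.2 h g⟩
      · obtain ⟨j, hj⟩ := (q.2.1.image Prod.fst).exists_notMem
        exact ⟨⟨_, th j a⟩, ⟨j, rfl⟩, disjoint_left.2 fun z h g => hj ⟨z, h, g.1⟩⟩)
    (fun n => {q | ∀ u ∈ B, (e n).2 = some u → u ∈ Prod.fst '' (p.F ∪ Prod.mk (e n).1 ⁻¹' q.1)})
    (fun n q a c => by
      by_cases d : ∀ u ∈ B, (e n).2 = some u → u ∈ Prod.fst '' (p.F ∪ Prod.mk (e n).1 ⁻¹' q.1)
      · exact ⟨q, le_rfl, d, c⟩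
      push Not at d
      obtain ⟨u, u1, u2, u3⟩ := d
      obtain ⟨k, hk⟩ := (((h1 u).union (a.2 (e n).1 u)).union (q.2.1.image (·.2.2))).bddAbove
      obtain ⟨_, ⟨m, m1, rfl⟩, m2, -⟩ := p.gd _ (p.bs u (k + 1)) ∅ finite_empty (by simp)
      have nk : m ∉ _ := fun c => (hk c).not_gt m1
      simp only [mem_union, not_or] at nk
      refine ⟨⟨insert ((e n).1, u, m) q.1, q.2.1.insert _, forall_mem_insert.2 ⟨⟨u1, fun c =>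
        u3 (image_mono subset_union_left c), nk.1.1⟩, q.2.2.1⟩, fun j => ?_⟩, subset_insert _ _,
        fun v _ c => ⟨(v, m), .inr (.inl (by rw [Option.some.inj (c.symm.trans u2)])), rfl⟩,
        disjoint_insert_left.2 ⟨nk.1.2, c⟩⟩
      by_cases c : j = (e n).1
      swap
      · convert q.2.2.2 j using 2
        ext; simp [c]
      subst c
      have : ∀ y ∈ p.F ∪ Prod.mk (e n).1 ⁻¹' q.1, y.1 ≠ u ∧ (y.1 ≤ u ∨ u ≤ y.1 → y.2 ≠ m) :=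
        fun y h => ⟨fun c => u3 ⟨y, h, c⟩, fun c g => h.elim (fun h => c.elim (fun c =>
          disjoint_left.1 m2 h ⟨u, by simp [g], c⟩) fun c => u3 (image_mono subset_union_left
            (p.lo c ⟨y, h, rfl⟩))) fun h => nk.2 ⟨_, h, g⟩⟩
      rw [show Prod.mk (e n).1 ⁻¹' insert ((e n).1, u, m) q.1 =
        insert (u, m) (Prod.mk (e n).1 ⁻¹' q.1) by ext; simp,
        union_insert]
      rintro x (rfl | x1) y (rfl | y1) l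
      exacts [by simp, iff_of_false (this y y1).1.symm ((this y y1).2 (.inr l)).symm,
        iff_of_false (this x x1).1 ((this x x1).2 (.inl l)), q.2.2.2 _ x x1 y y1 l])
    ⟨∅, by simp, by simp, fun _ => by simpa using p.sp⟩ ⟨∅, by simp⟩ (by simp)
  let F : ℕ → Set (T × ℕ) := fun j => p.F ∪ ⋃ q ∈ G, Prod.mk j ⁻¹' q.1
  have f1 : ∀ j, B ⊆ Prod.fst '' F j := fun j u c => by
    obtain ⟨n, hn⟩ := he (show (j, some u) ∈ _ from ⟨trivial, u, c, rfl⟩)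
    obtain ⟨q, q1, q2, -⟩ := g2 n
    have := q2 u c (hn ▸ rfl)
    rw [hn] at this
    exact image_mono (union_subset_union_right _ (subset_biUnion_of_mem
      (u := fun q : Qᵒᵈ => Prod.mk j ⁻¹' q.1) q1)) this
  obtain ⟨q0, q1, -⟩ := g2 0
  have f2 : ∀ j, ∀ x ∈ F j, ∃ q ∈ G, x ∈ p.F ∪ Prod.mk j ⁻¹' q.1 := fun j x h => h.elim
    (fun h => ⟨q0, q1, .inl h⟩) fun h => let ⟨q, a, b⟩ := mem_iUnion₂.1 h; ⟨q, a, .inr b⟩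
  have f3 : ∀ j a, Disjoint p.F (Φ a) → (∀ r ∈ G, Disjoint r.1 ({j} ×ˢ Φ a)) →
      Disjoint (F j) (Φ a) := fun j a c d => disjoint_left.2 fun x h g => let ⟨q, a, b⟩ := f2 j x h
    b.elim (fun b => disjoint_left.1 c b g) fun b => disjoint_left.1 (d q a) b ⟨rfl, g⟩
  refine ⟨fun j => ⟨F j, p.S ∪ S, p.c.union ((to_countable G).biUnion fun q _ => (fi q j).countable),
    fun x h y g => ?_, ?_, (mk_union_le _ _).trans (add_le_of_le (aleph0_le_aleph 1) p.k h5),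
    fun t k => .inl (p.bs t k), fun A c E e d => ?_⟩, fun j => ⟨⟨subset_union_left,
      subset_union_left⟩, f1 j, subset_union_right⟩, fun a c => ?_⟩
  · obtain ⟨q, a1, a2⟩ := f2 j x h
    obtain ⟨r, b1, b2⟩ := f2 j y g
    obtain ⟨s, -, s1, s2⟩ := g1 q a1 r b1
    exact s.2.2.2 j x (a2.imp_right fun h => s1 h) y (b2.imp_right fun h => s2 h)
  · rintro _ u l ⟨x, h, rfl⟩
    obtain ⟨q, -, h | h⟩ := f2 j x h
    exacts [image_mono subset_union_left (p.lo l ⟨x, h, rfl⟩), f1 j (h3 l (q.2.2.1 _ h).1)]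
  · obtain ⟨b, ⟨a, a1, a2, a3, a4⟩, a5⟩ := g3 (.inl (j, ⟨A, c⟩, ⟨E, e⟩)) q0 q1 fun z h =>
      ⟨fun c => (d z h).1 (image_mono subset_union_left c), fun c => (d z h).1 (f1 j c)⟩
    exact ⟨a, a1, f3 j a a3 (a2 ▸ a5), a4⟩
  · obtain ⟨b, ⟨j, a2⟩, a5⟩ := g3 (.inr a) q0 q1 trivial
    exact ⟨j, f3 j a c (a2 ▸ a5)⟩

end Pool.Agent.H.MP_f1f3c4_lc
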