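import Mathlib
import Pool.Agent.H.MP_f1f3c4_lc.A

set_option autoImplicit false

namespace Pool.Agent.H.MP_f1f3c4_lc

open Set Filter Function Cardinal Pool.Agent.H.MP_77d395_lc Pool.Agent.H.MP_31a5ad_lc

variable {T : Type} [PartialOrder T]

theorem lc (hm : ∀ t : T, IsChain (· ≤ ·) (Iic t)) (hc : ∀ C : Set T, IsChain (· ≤ ·) C → C.Countable)
    {S : Set T} (h : S.Countable) : ∃ B, B.Countable ∧ IsLowerSet B ∧ S ⊆ B :=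
  ⟨_, h.biUnion fun t _ => hc _ (hm t), isLowerSet_iUnion₂ fun t _ => isLowerSet_Iic t,
    fun t c => mem_biUnion c le_rfl⟩

theorem k1 (h : MAs) (hT : #T ≤ ℵ₁) (hm : ∀ t : T, IsChain (· ≤ ·) (Iic t))
    (hc : ∀ C : Set T, IsChain (· ≤ ·) C → C.Countable) (p : Cd T) (D : Set (Cd T))
    (hD : ∀ p, ∃ q ≤ p, q ∈ D) : ∃ S : Set T, S.Countable ∧ ∀ a, ∃ q, Disjoint p.F (Φ a) →
      q ≤ p ∧ q ∈ D ∧ Prod.fst '' q.F ⊆ S ∧ Disjoint q.F (Φ a) := by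
  obtain ⟨j⟩ := (le_def T I).1 (mkI ▸ hT)
  by_contra! c
  choose a ha using fun γ => c _ ((cI γ).preimage j.injective)
  have bd : ∀ s : Set I, s.Countable → ∃ b, ∀ a ∈ s, a ≤ b := fun s c =>
    (unc (c.biUnion fun a _ => cI a)).imp fun b hb a ha => (not_le.1 fun g => hb (mem_biUnion ha g)).le
  obtain ⟨k, hk⟩ : ∃ k, ∃ᶠ γ in atTop, (a γ).length = k := by
    by_contra! c
    choose b hb using fun k => eventually_atTop.1 (c k)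
    obtain ⟨g, hg⟩ := bd _ (countable_range b)
    exact hb _ g (hg _ ⟨_, rfl⟩) rfl
  obtain ⟨U, hU⟩ := Ultrafilter.exists_le (h := frequently_iff_neBot.1 hk)
  let Ψ : ℕ → Set (T × ℕ) := fun i => {z | {γ | ∃ t, (a γ)[i]? = some (t, z.2) ∧ z.1 ≤ t} ∈ U}
  have ψ : ∀ i, ∀ x ∈ Ψ i, ∀ y ∈ Ψ i, x.2 = y.2 ∧ (x.1 ≤ y.1 ∨ y.1 ≤ x.1) := fun i x h y g => by
    obtain ⟨γ, ⟨s, s1, s2⟩, t, t1, t2⟩ := U.nonempty_of_mem (inter_mem h g)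
    obtain ⟨rfl, e⟩ := Prod.mk.inj (Option.some.inj (s1.symm.trans t1))
    exact ⟨e, (hm s).total s2 t2⟩
  obtain ⟨B, b1, b2, b3⟩ := lc hm hc (countable_iUnion fun i => hc (Prod.fst '' Ψ i) (by
    rintro _ ⟨x, h, rfl⟩ _ ⟨y, g, rfl⟩ -
    exact (ψ i x h y g).2))
  obtain ⟨q, q1, -⟩ := el h hT p (⋃ i < k, Ψ i) B (range fun γ => a '' Ici γ) (fun u => by
      simpa only [mem_iUnion, ofPred_exists, mem_Iio] using (finite_Iio k).biUnion fun i _ =>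
        Set.Subsingleton.finite (s := {c | (u, c) ∈ Ψ i}) fun c h d g => (ψ i _ h _ g).1) b1 b2
    (subset_trans (image_mono (iUnion_mono fun i => iUnion_subset fun _ => subset_rfl))
      (image_iUnion.le.trans b3)) (mkI ▸ mk_range_le) (by
      rintro _ ⟨γ, rfl⟩ E e d
      have : ∀ᶠ δ in U, ∀ z ∈ E, ∀ i ∈ Iio k, ¬ ∃ t, (a δ)[i]? = some (t, z.2) ∧ z.1 ≤ t :=
        (eventually_all_finite e).2 fun z c => (eventually_all_finite (finite_Iio k)).2 fun i h =>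
          Ultrafilter.compl_mem_iff_notMem.2 fun g => (d z c).2 (mem_iUnion₂.2 ⟨i, h, g⟩)
      obtain ⟨δ, d1, d2, d3⟩ := (this.and (Eventually.and (hU (mem_inf_of_left (Ici_mem_atTop γ)))
        (hU (mem_inf_of_right (mem_principal_self _))))).exists
      refine ⟨_, ⟨δ, d2, rfl⟩, (ha δ p).1, disjoint_left.2 fun z c ⟨t, t1, t2⟩ => ?_⟩
      obtain ⟨i, hi⟩ := List.mem_iff_getElem?.1 t1
      exact d1 z c i (d3 ▸ (List.getElem?_eq_some_iff.1 hi).1) ⟨t, hi, t2⟩)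
  obtain ⟨r, r1, r2⟩ := hD (q 0)
  obtain ⟨γ, hγ⟩ := bd _ ((r.c.image Prod.fst).image j)
  obtain ⟨_, ⟨δ, d1, rfl⟩, d2, -⟩ := r.gd _ (r1.2 ((q1 0).2.2 ⟨γ, rfl⟩)) ∅ finite_empty (by simp)
  exact (ha δ r).2 (r1.trans (q1 0).1) r2 (fun u c => (hγ _ ⟨u, c, rfl⟩).trans d1) d2

theorem sh (N : Set T) (B : ℕ → Set T) (hB : Monotone B) (hN : N ⊆ ⋃ k, B k) (a : List (T × ℕ)) :
    ∀ᶠ k in atTop, ∀ m, ∃ b : List (T × ℕ), (∀ᶠ l in atTop, ∀ z ∈ b, z.1 ∈ B l) ∧ Φ b ⊆ Φ a ∧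
      ∀ z ∈ a, Iic z.1 ∩ N ⊆ B k ∨ ∃ s, (s, z.2) ∈ b ∧ s ≤ z.1 ∧ s ∉ B m := by
  induction a with
  | nil => exact .of_forall fun k m => ⟨[], by simp⟩
  | cons z a ih =>
    have mo : Φ a ⊆ Φ (z :: a) := fun _ ⟨t, h, g⟩ => ⟨t, List.mem_cons_of_mem _ h, g⟩
    by_cases c : ∃ k, Iic z.1 ∩ N ⊆ B k
    · obtain ⟨k, c⟩ := c
      exact (ih.and (eventually_ge_atTop k)).mono fun l h m => (h.1 m).imp fun b g =>
        ⟨g.1, g.2.1.trans mo, List.forall_mem_cons.2 ⟨.inl (c.trans (hB h.2)), g.2.2⟩⟩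
    refine ih.mono fun l h m => ?_
    obtain ⟨b, b1, b2, b3⟩ := h m
    obtain ⟨s, ⟨s1, s2⟩, s3⟩ := not_subset.1 (not_exists.1 c m)
    obtain ⟨k, hk⟩ := mem_iUnion.1 (hN s2)
    refine ⟨(s, z.2) :: b, (b1.and (eventually_ge_atTop k)).mono fun l h =>
      List.forall_mem_cons.2 ⟨hB h.2 hk, h.1⟩, fun y ⟨t, t1, t2⟩ => (List.mem_cons.1 t1).elim
      (fun e => ?_) fun e => mo (b2 ⟨t, e, t2⟩), List.forall_mem_cons.2 ⟨.inr ⟨s, by simp, s1, s3⟩,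
        fun y c => (b3 y c).imp_right fun ⟨s, h, g⟩ => ⟨s, List.mem_cons_of_mem _ h, g⟩⟩⟩
    obtain ⟨rfl, g⟩ := Prod.mk.inj e
    exact ⟨z.1, g ▸ List.mem_cons_self, t2.trans s1⟩

theorem dl (h : MAs) (hT : #T ≤ ℵ₁) (hm : ∀ t : T, IsChain (· ≤ ·) (Iic t))
    (hc : ∀ C : Set T, IsChain (· ≤ ·) C → C.Countable) (p0 : Cd T) (D : ℕ → Set (Cd T))
    (hD : ∀ n p, ∃ q ≤ p, q ∈ D n) : ∃ q ≤ p0, ∀ n, ∃ r ∈ D n, q ≤ r := by
  have hZ : #(T × ℕ) ≤ ℵ₁ := by simpa using mul_le_of_le (aleph0_le_aleph 1) hT (aleph0_le_aleph 1)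
  choose S s1 w s2 using fun p n => k1 h hT hm hc p (D n) (hD n)
  choose x x1 x2 using fun p (B : {B : Set T // B.Countable ∧ IsLowerSet B}) =>
    el h hT p ∅ B.1 ∅ (by simp) B.2.1 B.2.2 (by simp) (by simp) (by simp)
  choose L l1 l2 l3 using fun S : {S : Set T // S.Countable} => lc hm hc S.2
  let Y := {P : Set (Cd T) // P.Countable} × {B : Set T // B.Countable ∧ IsLowerSet B}
  let st : Y → Y := fun y => (⟨y.1.1 ∪ ⋃ p ∈ y.1.1, range (x p y.2) ∪ ⋃ n,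
    w p n '' {a | ∀ z ∈ a, z.1 ∈ y.2.1}, y.1.2.union (y.1.2.biUnion fun p _ =>
      (countable_range _).union (countable_iUnion fun n => .image (by
        have := (y.2.2.1.prod (countable_univ (α := ℕ))).to_subtype
        exact (countable_range (List.map (Subtype.val : ↥(y.2.1 ×ˢ Set.univ) → T × ℕ))).mono
          fun a h => mem_range.2 ⟨a.attachWith _ fun z c => ⟨h z c, trivial⟩,
            List.attachWith_map_subtype_val _⟩) _))⟩,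
    ⟨L ⟨y.2.1 ∪ ⋃ p ∈ y.1.1, Prod.fst '' p.F ∪ ⋃ n, S p n, y.2.2.1.union (y.1.2.biUnion fun p _ =>
      (p.c.image _).union (countable_iUnion (s1 p)))⟩, l1 _, l2 _⟩)
  let y : ℕ → Y := fun k => st^[k] (⟨{p0}, by simp⟩, ⟨∅, by simp, isLowerSet_empty⟩)
  have e : ∀ k, y (k + 1) = st (y k) := fun k => iterate_succ_apply' _ _ _
  have y1 : Monotone fun k => (y k).1.1 := monotone_nat_of_le_succ fun k => e k ▸ subset_union_left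
  have y2 : Monotone fun k => (y k).2.1 := monotone_nat_of_le_succ fun k =>
    e k ▸ fun _ c => l3 _ (.inl c)
  have y3 : ∀ k, ∀ p ∈ (y k).1.1, Prod.fst '' p.F ∪ ⋃ n, S p n ⊆ (y (k + 1)).2.1 := fun k p c =>
    e k ▸ fun _ g => l3 _ (.inr (mem_biUnion c g))
  have y4 : ∀ k, ∀ p ∈ (y k).1.1, range (x p (y k).2) ∪ ⋃ n, w p n '' {a | ∀ z ∈ a, z.1 ∈ (y k).2.1}
      ⊆ (y (k + 1)).1.1 := fun k p c q g => e k ▸ .inr (mem_biUnion c g)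
  let N := ⋃ k, (y k).2.1
  let Q := ↥(⋃ k, (y k).1.1)
  have : Countable Q := (countable_iUnion fun k => (y k).1.2).to_subtype
  have q1 : ∀ q : Q, Prod.fst '' q.1.F ⊆ N := fun q => let ⟨k, c⟩ := mem_iUnion.1 q.2
    (subset_union_left.trans (y3 k _ c)).trans (subset_iUnion (fun k => (y k).2.1) _)
  have kS : ∀ G : Set Q, #↥(⋃ q : G, q.1.1.S) ≤ ℵ₁ := fun G => (mk_iUnion_le _).trans (mul_le_of_le
    (aleph0_le_aleph 1) (mk_le_aleph0.trans (aleph0_le_aleph 1)) (ciSup_le' fun q => q.1.1.k))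
  obtain ⟨G, g1, g2, g3⟩ := am h (Q := Q) (τ := ↥(⋃ q : (Set.univ : Set Q), q.1.1.S) ×
      {E : Set (T × ℕ) // E.Finite}) (fun q => q.1.F) (fun a b h => (show a.1 ≤ b.1 from h).1) Φ (fun a b => ⟨a ++ b, by
        ext; simp [Φ, or_and_right, exists_or]⟩) (by
      rw [mk_prod, lift_id, lift_id]; exact mul_le_of_le (aleph0_le_aleph 1) (kS _) (kf hZ).1)
    (fun i => {q | i.1.1 ∈ q.1.S ∧ ∀ z ∈ i.2.1, z.1 ∉ N}) (fun i a b h g =>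
      ⟨(show b.1 ≤ a.1 from h).2 g.1, g.2⟩)
    (fun i => {a ∈ i.1.1 | Disjoint i.2.1 (Φ a)}) (fun i q c => (q.1.gd _ c.1 _ i.2.2 fun z h =>
      ⟨fun g => c.2 z h (q1 q g), id⟩).imp fun a h => ⟨⟨h.1, h.2.2⟩, h.2.1⟩)
    (fun n => {q | q.1 ∈ D n ∧ (y n).2.1 ⊆ Prod.fst '' q.1.F}) (fun n q a c => by
      obtain ⟨k, hk⟩ := mem_iUnion.1 q.2
      obtain ⟨l, l1, l2, l3⟩ := ((sh N _ y2 subset_rfl a).and ((eventually_ge_atTop k).and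
        (eventually_ge_atTop n))).exists
      obtain ⟨b, b1, b2, b3⟩ := l1 (l + 2)
      obtain ⟨m, m1, m2⟩ := (b1.and (eventually_ge_atTop (l + 1))).exists
      obtain ⟨j, hj⟩ := x2 q (y l).2 a c
      have a1 := y4 l _ (y1 l2 hk) (.inl ⟨j, rfl⟩)
      obtain ⟨a2, a3, -⟩ := x1 q (y l).2 j
      generalize x q (y l).2 j = p at hj a1 a2 a3
      obtain ⟨r1, r2, r3, r4⟩ := s2 p n b (hj.mono_right b2)
      have r5 := r3.trans ((subset_iUnion (S p) n).trans (subset_union_right.trans (y3 _ _ a1)))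
      refine ⟨⟨_, mem_iUnion.2 ⟨_, y4 m _ (y1 m2 a1) (.inr (mem_iUnion.2 ⟨n, b, m1, rfl⟩))⟩⟩,
        r1.trans a2, ⟨r2, (y2 l3).trans (a3.trans (image_mono r1.1))⟩,
        disjoint_left.2 fun z z1 ⟨t, t1, t2⟩ => ?_⟩
      rcases b3 _ t1 with d | ⟨s, d1, d2, d3⟩
      · obtain ⟨v, v1, v2⟩ := a3 (d ⟨t2, mem_iUnion.2 ⟨_, r5 ⟨z, z1, rfl⟩⟩⟩)
        exact disjoint_left.1 hj v1 ⟨t, (((w p n b).sp v (r1.1 v1) z z1 v2.le).1 v2).symm ▸ t1,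
          v2 ▸ t2⟩
      · exact ((hm t).total t2 d2).elim (fun g => disjoint_left.1 r4 z1 ⟨s, d1, g⟩) fun g =>
          d3 (r5 ((w p n b).lo g ⟨z, z1, rfl⟩))) ⟨p0, mem_iUnion.2 ⟨0, rfl⟩⟩ [] (by simp [Φ])
  obtain ⟨q0, a1, -, a2⟩ := g2 0
  have le : ∀ q ∈ G, q.1.F ⊆ ⋃ q : G, q.1.1.F ∧ q.1.S ⊆ ⋃ q : G, q.1.1.S := fun q c =>
    ⟨subset_iUnion (fun q : G => q.1.1.F) ⟨q, c⟩, subset_iUnion (fun q : G => q.1.1.S) ⟨q, c⟩⟩
  refine ⟨⟨⋃ q : G, q.1.1.F, ⋃ q : G, q.1.1.S, countable_iUnion fun q => q.1.1.c,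
    fun u c v d => ?_, image_iUnion ▸ isLowerSet_iUnion fun q => q.1.1.lo, kS G,
    fun t k => (le q0 a1).2 (q0.1.bs t k), fun A c E d f => ?_⟩,
    ⟨a2.1.trans (le q0 a1).1, a2.2.trans (le q0 a1).2⟩, fun n =>
      let ⟨q, a, b, _⟩ := g2 n; ⟨q, b.1, le q a⟩⟩
  · obtain ⟨q, c⟩ := mem_iUnion.1 c
    obtain ⟨r, d⟩ := mem_iUnion.1 d
    obtain ⟨s, -, s1, s2⟩ := g1 _ q.2 _ r.2
    exact s.1.sp u (s1.1 c) v (s2.1 d)
  · obtain ⟨q, c⟩ := mem_iUnion.1 c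
    obtain ⟨a, a1, a2⟩ := g3 (⟨A, mem_iUnion.2 ⟨⟨q, trivial⟩, c⟩⟩, ⟨E, d⟩) q q.2 ⟨c, fun z g c => by
      obtain ⟨n, c⟩ := mem_iUnion.1 c
      obtain ⟨r, r1, r2, -⟩ := g2 n
      exact (f z g).1 (image_mono (le r r1).1 (r2.2 c))⟩
    exact ⟨a, a1.1, disjoint_iUnion_left.2 fun r => a2 r r.2, a1.2⟩

theorem main (h : MAs) (hT : #T ≤ ℵ₁) (ht : ∀ t : T, IsChain (· ≤ ·) (Iio t))
    (hc : ∀ C : Set T, IsChain (· ≤ ·) C → C.Countable) : Spz T := by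
  have hm : ∀ t : T, IsChain (· ≤ ·) (Iic t) := fun t => Iio_insert (a := t) ▸ (ht t).insert
    fun _ h _ => .inr h.le
  refine ⟨Cd T, inferInstance, ⟨⟨∅, range (uncurry Bs), by simp, by simp [Sp], by simp [isLowerSet_empty],
    mk_range_le.trans (by simpa using mul_le_of_le (aleph0_le_aleph 1) hT (aleph0_le_aleph 1)),
    fun t k => ⟨(t, k), rfl⟩, ?_⟩⟩, fun U p => ?_, fun t n => {p | (t, n) ∈ p.F}, fun t p => ?_,
    fun s t l n p a q b ⟨r, c, d⟩ => l.ne ((r.sp _ (c.1 a) _ (d.1 b) l.le).2 rfl)⟩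
  · rintro _ ⟨⟨t, k⟩, rfl⟩ E e -
    obtain ⟨m, hm⟩ := (e.image Prod.snd).bddAbove
    exact ⟨_, ⟨max k (m + 1), le_max_left _ _, rfl⟩, by simp, disjoint_left.2 fun z c ⟨s, s1, _⟩ => by
      have := hm ⟨z, c, rfl⟩
      simp at s1
      omega⟩
  · obtain ⟨q, q1, q2⟩ := dl h hT hm hc p (fun n => {q | (∃ u ∈ U n, q ≤ u) ∨
      ∀ r ≤ q, ∀ u ∈ U n, ¬ r ≤ u}) fun n p => by
      by_cases c : ∀ r ≤ p, ∀ u ∈ U n, ¬ r ≤ u
      · exact ⟨p, le_rfl, .inr c⟩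
      push Not at c
      exact c.imp fun r c => ⟨c.1, .inl c.2⟩
    exact ⟨q, q1, fun n => let ⟨r, a, b⟩ := q2 n; a.imp (fun ⟨u, c, d⟩ s e =>
      ⟨s, le_rfl, u, c, e.trans (b.trans d)⟩) fun c s e => c s (e.trans b)⟩
  · obtain ⟨q, q1, -⟩ := el h hT p ∅ (Iic t) ∅ (by simp) (hc _ (hm t)) (isLowerSet_Iic t) (by simp)
      (by simp) (by simp)
    obtain ⟨z, z1, rfl⟩ := (q1 0).2.1 le_rfl
    exact ⟨_, (q1 0).1, z.2, _, z1, le_rfl⟩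

end Pool.Agent.H.MP_f1f3c4_lc
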